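import Pool.Agent.Lib.MP_2757db_lc.Defs

/-!
Basic facts about the fine wedge topology of a tree.
-/

open Cardinal

namespace MP2757db

variable {T : Type*} [PartialOrder T]

/-- predecessors of a node are pairwise comparable -/
lemma IsTree.comp (hT : IsTree T) {x y z : T} (hy : y ≤ x) (hz : z ≤ x) : y ≤ z ∨ z ≤ y := by
  rcases eq_or_lt_of_le hy with rfl | hy
  · exact Or.inr hz
  rcases eq_or_lt_of_le hz with rfl | hz
  · exact Or.inl hy.le
  obtain ⟨m, hm, h⟩ := hT x {y, z} (by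
    intro w hw
    rcases hw with rfl | hw
    · exact hy
    · rw [Set.mem_singleton_iff] at hw; exact hw ▸ hz) ⟨y, Or.inl rfl⟩
  rcases hm with rfl | hm
  · exact Or.inl (h z (Or.inr rfl))
  · rw [Set.mem_singleton_iff] at hm
    subst hm
    exact Or.inr (h y (Or.inl rfl))

/-- every nonempty set of nodes below a node `x` (possibly including `x`) has a least element -/
lemma IsTree.exists_least (hT : IsTree T) {x : T} {S : Set T} (hS : ∀ y ∈ S, y ≤ x) (hne : S.Nonempty) :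
    ∃ m ∈ S, ∀ y ∈ S, m ≤ y := by
  by_cases h : ∃ y ∈ S, y < x
  · obtain ⟨y, hy, hyx⟩ := h
    obtain ⟨m, hm, h⟩ := hT x {z | z ∈ S ∧ z < x} (fun z hz => hz.2) ⟨y, hy, hyx⟩
    refine ⟨m, hm.1, fun z hz => ?_⟩
    rcases eq_or_lt_of_le (hS z hz) with rfl | hlt
    · exact hm.2.le
    · exact h z ⟨hz, hlt⟩
  · push Not at h
    obtain ⟨y, hy⟩ := hne
    have h1 : ∀ z ∈ S, z = x := fun z hz => by
      by_contra hne
      exact h z hz (lt_of_le_of_ne (hS z hz) hne)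
    refine ⟨y, hy, fun z hz => ?_⟩
    rw [h1 y hy, h1 z hz]

lemma isOpen_wedge (t : T) : @IsOpen T (fineWedge T) {s | t ≤ s} :=
  TopologicalSpace.isOpen_generateFrom_of_mem (Or.inl ⟨t, rfl⟩)

lemma isOpen_wedge_compl (t : T) : @IsOpen T (fineWedge T) {s | t ≤ s}ᶜ :=
  TopologicalSpace.isOpen_generateFrom_of_mem (Or.inr ⟨t, rfl⟩)

lemma isOpen_basic (t : T) (E : Finset T) :
    @IsOpen T (fineWedge T) {x | t ≤ x ∧ ∀ u ∈ E, ¬ u ≤ x} := by
  classical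
  let _ := fineWedge T
  have h : {x | t ≤ x ∧ ∀ u ∈ E, ¬ u ≤ x} = {s | t ≤ s} ∩ ⋂ u ∈ E, {s | u ≤ s}ᶜ := by
    ext x; simp
  rw [h]
  exact (isOpen_wedge t).inter (isOpen_biInter_finset (fun u _ => isOpen_wedge_compl u))

lemma exists_basic (hT : IsTree T) {U : Set T} (hU : @IsOpen T (fineWedge T) U) {t : T} (ht : t ∈ U) :
    ∃ E : Finset T, (∀ u ∈ E, t < u) ∧ ∀ x, t ≤ x → (∀ u ∈ E, ¬ u ≤ x) → x ∈ U := by
  classical
  have hU' : TopologicalSpace.GenerateOpen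
    ({V | ∃ t : T, V = {s | t ≤ s}} ∪ {V | ∃ t : T, V = {s | t ≤ s}ᶜ}) U := hU
  induction hU' generalizing t with
  | basic V hV =>
    rcases hV with ⟨s, rfl⟩ | ⟨s, rfl⟩
    · exact ⟨∅, by simp, fun x hx _ => le_trans ht hx⟩
    · by_cases h : t < s
      · exact ⟨{s}, by simpa using h, fun x _ hx2 => hx2 s (by simp)⟩
      · refine ⟨∅, by simp, fun x hx _ hsx => ?_⟩
        rcases hT.comp hx hsx with h1 | h1
        · rcases eq_or_lt_of_le h1 with rfl | h1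
          · exact ht (le_refl _)
          · exact h h1
        · exact ht h1
  | univ => exact ⟨∅, by simp, fun _ _ _ => trivial⟩
  | inter A B hA hB ihA ihB =>
    obtain ⟨E, hE, h1⟩ := ihA hA ht.1
    obtain ⟨F, hF, h2⟩ := ihB hB ht.2
    refine ⟨E ∪ F, ?_, fun x hx h => ⟨h1 x hx fun u hu => h u (Finset.mem_union_left _ hu),
      h2 x hx fun u hu => h u (Finset.mem_union_right _ hu)⟩⟩
    intro u hu
    rcases Finset.mem_union.mp hu with hu | hu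
    · exact hE u hu
    · exact hF u hu
  | sUnion S hS ih =>
    obtain ⟨A, hA, htA⟩ := ht
    obtain ⟨E, hE, h1⟩ := ih A hA (hS A hA) htA
    exact ⟨E, hE, fun x hx h => ⟨A, hA, h1 x hx h⟩⟩

/-- combinatorial form of the Lindelöf property -/
lemma Lindelof.combin (hL : Lindelof (fineWedge T)) (E : T → Finset T) :
    ∃ C : Set T, C.Countable ∧ ∀ x, (∀ t, ∀ u ∈ E t, t < u) → ∃ t ∈ C, t ≤ x ∧ ∀ u ∈ E t, ¬ u ≤ x := by
  classical
  by_cases hE : ∀ t, ∀ u ∈ E t, t < u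
  swap
  · exact ⟨∅, Set.countable_empty, fun x h => absurd h hE⟩
  let N : T → Set T := fun t => {x | t ≤ x ∧ ∀ u ∈ E t, ¬ u ≤ x}
  obtain ⟨𝒱, h𝒱, hc, hcov⟩ := hL (Set.range N) (by
    rintro U ⟨t, rfl⟩
    exact isOpen_basic t (E t)) (by
    rw [Set.eq_univ_iff_forall]
    intro x
    exact ⟨N x, ⟨x, rfl⟩, le_refl x, fun u hu => not_le_of_gt (hE x u hu)⟩)
  choose f hf using fun (U : 𝒱) => h𝒱 U.2
  have : Countable 𝒱 := hc
  refine ⟨Set.range f, Set.countable_range f, fun x _ => ?_⟩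
  have hx : x ∈ ⋃₀ 𝒱 := by rw [hcov]; trivial
  obtain ⟨U, hU, hxU⟩ := hx
  refine ⟨f ⟨U, hU⟩, ⟨_, rfl⟩, ?_⟩
  have h3 : x ∈ N (f ⟨U, hU⟩) := by rw [hf ⟨U, hU⟩]; exact hxU
  exact h3

/-- the Lindelöf property from its combinatorial form -/
lemma lindelof_of_combin (hT : IsTree T)
    (h : ∀ E : T → Finset T, (∀ t, ∀ u ∈ E t, t < u) →
      ∃ C : Set T, C.Countable ∧ ∀ x, ∃ t ∈ C, t ≤ x ∧ ∀ u ∈ E t, ¬ u ≤ x) :
    Lindelof (fineWedge T) := by
  classical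
  intro 𝒰 hopen hcov
  have h1 : ∀ t : T, ∃ U ∈ 𝒰, ∃ E : Finset T, (∀ u ∈ E, t < u) ∧
      ∀ x, t ≤ x → (∀ u ∈ E, ¬ u ≤ x) → x ∈ U := by
    intro t
    have ht : t ∈ ⋃₀ 𝒰 := by rw [hcov]; trivial
    obtain ⟨U, hU, htU⟩ := ht
    exact ⟨U, hU, exists_basic hT (hopen U hU) htU⟩
  choose U hU E hE1 hE2 using h1
  obtain ⟨C, hC, hCcov⟩ := h E hE1
  refine ⟨U '' C, ?_, hC.image _, ?_⟩
  · rintro _ ⟨t, _, rfl⟩; exact hU t
  · rw [Set.eq_univ_iff_forall]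
    intro x
    obtain ⟨t, ht, h1, h2⟩ := hCcov x
    exact ⟨U t, ⟨t, ht, rfl⟩, hE2 t x h1 h2⟩

end MP2757db
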