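import Mathlib

/-!
The basic diagonalisation: pairs of sequences `x, y : ℕ → ℕ` escaping countably many
bounding functions and such that for all `n, m`: `x n ≤ m` or `y m ≤ n`.
-/

namespace MP2757db

/-- the restriction of `x` to `n`, as a list -/
def res (x : ℕ → ℕ) (n : ℕ) : List ℕ := (List.range n).map x

@[simp] lemma length_res (x : ℕ → ℕ) (n : ℕ) : (res x n).length = n := by simp [res]

lemma res_congr {x y : ℕ → ℕ} {n : ℕ} (h : ∀ j < n, x j = y j) : res x n = res y n := by
  unfold res
  apply List.map_congr_left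
  intro j hj
  exact h j (List.mem_range.mp hj)

lemma res_succ (x : ℕ → ℕ) (n : ℕ) : res x (n + 1) = res x n ++ [x n] := by
  simp [res, List.range_succ]

/-- state of the construction -/
structure St where
  x : ℕ → ℕ
  y : ℕ → ℕ
  n : ℕ

/-- bound -/
def bnd (F : ℕ → List ℕ → ℕ) (i : ℕ) (s : List ℕ) : ℕ := (Finset.range (i + 1)).sup (fun k => F k s)

lemma le_bnd (F : ℕ → List ℕ → ℕ) {i k : ℕ} (hk : k ≤ i) (s : List ℕ) : F k s ≤ bnd F i s :=
  Finset.le_sup (f := fun k => F k s) (Finset.mem_range.mpr (by omega))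

/-- one step of the construction -/
def step (F : ℕ → List ℕ → ℕ) (i : ℕ) (σ : St) : St :=
  let b := bnd F i (res σ.x σ.n)
  let m := max (σ.n + 1) b
  let d := bnd F i (res σ.y m)
  ⟨Function.update σ.x σ.n b, Function.update σ.y m d, max (m + 1) d⟩

/-- the sequence of states -/
def states (F : ℕ → List ℕ → ℕ) : ℕ → St
  | 0 => ⟨fun _ => 0, fun _ => 0, 0⟩
  | i + 1 => step F i (states F i)

structure Inv (σ : St) : Prop where
  zx : ∀ j, σ.n ≤ j → σ.x j = 0
  zy : ∀ j, σ.n ≤ j → σ.y j = 0
  bx : ∀ j, σ.x j ≤ σ.n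
  by' : ∀ j, σ.y j ≤ σ.n
  c : ∀ n m, σ.x n ≤ m ∨ σ.y m ≤ n

lemma inv_step (F : ℕ → List ℕ → ℕ) (i : ℕ) {σ : St} (h : Inv σ) : Inv (step F i σ) := by
  have e : step F i σ = ⟨Function.update σ.x σ.n (bnd F i (res σ.x σ.n)),
    Function.update σ.y (max (σ.n + 1) (bnd F i (res σ.x σ.n)))
      (bnd F i (res σ.y (max (σ.n + 1) (bnd F i (res σ.x σ.n))))),
    max (max (σ.n + 1) (bnd F i (res σ.x σ.n)) + 1)
      (bnd F i (res σ.y (max (σ.n + 1) (bnd F i (res σ.x σ.n)))))⟩ := rfl
  rw [e]
  generalize bnd F i (res σ.x σ.n) = b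
  generalize hm : max (σ.n + 1) b = m
  generalize bnd F i (res σ.y m) = d
  have hnm : σ.n < m := by omega
  have hbm : b ≤ m := by omega
  constructor
  · intro j hj
    dsimp only at hj ⊢
    rw [Function.update_of_ne (by omega)]
    exact h.zx j (by omega)
  · intro j hj
    dsimp only at hj ⊢
    rw [Function.update_of_ne (by omega)]
    exact h.zy j (by omega)
  · intro j
    dsimp only
    by_cases hj : j = σ.n
    · subst hj; rw [Function.update_self]; omega
    · rw [Function.update_of_ne hj]
      have := h.bx j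
      omega
  · intro j
    dsimp only
    by_cases hj : j = m
    · subst hj; rw [Function.update_self]; omega
    · rw [Function.update_of_ne hj]
      have := h.by' j
      omega
  · intro p q
    dsimp only
    by_cases hp : p = σ.n
    · subst hp
      rw [Function.update_self]
      by_cases hq : q = m
      · left; omega
      · rw [Function.update_of_ne hq]
        right
        exact h.by' q
    · rw [Function.update_of_ne hp]
      by_cases hq : q = m
      · subst hq
        left
        have := h.bx p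
        omega
      · rw [Function.update_of_ne hq]
        exact h.c p q

lemma inv_states (F : ℕ → List ℕ → ℕ) (i : ℕ) : Inv (states F i) := by
  induction i with
  | zero => constructor <;> intros <;> simp [states]
  | succ i ih => exact inv_step F i ih

lemma n_lt_step (F : ℕ → List ℕ → ℕ) (i : ℕ) (σ : St) : σ.n < (step F i σ).n := by
  have e : (step F i σ).n = max (max (σ.n + 1) (bnd F i (res σ.x σ.n)) + 1)
      (bnd F i (res σ.y (max (σ.n + 1) (bnd F i (res σ.x σ.n))))) := rfl
  rw [e]; omega

lemma le_n (F : ℕ → List ℕ → ℕ) (i : ℕ) : i ≤ (states F i).n := by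
  induction i with
  | zero => omega
  | succ i ih =>
    have := n_lt_step F i (states F i)
    show i + 1 ≤ (step F i (states F i)).n
    omega

lemma stable_step (F : ℕ → List ℕ → ℕ) (i : ℕ) (σ : St) {j : ℕ} (hj : j < σ.n) :
    (step F i σ).x j = σ.x j ∧ (step F i σ).y j = σ.y j := by
  have e1 : (step F i σ).x = Function.update σ.x σ.n (bnd F i (res σ.x σ.n)) := rfl
  have e2 : (step F i σ).y = Function.update σ.y (max (σ.n + 1) (bnd F i (res σ.x σ.n)))
      (bnd F i (res σ.y (max (σ.n + 1) (bnd F i (res σ.x σ.n))))) := rfl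
  rw [e1, e2, Function.update_of_ne (by omega), Function.update_of_ne (by omega)]
  exact ⟨rfl, rfl⟩

lemma mono_n (F : ℕ → List ℕ → ℕ) {i k : ℕ} (h : i ≤ k) : (states F i).n ≤ (states F k).n := by
  induction k, h using Nat.le_induction with
  | base => exact le_refl _
  | succ k hk ih =>
    have := n_lt_step F k (states F k)
    show (states F i).n ≤ (step F k (states F k)).n
    omega

lemma stable (F : ℕ → List ℕ → ℕ) {i k : ℕ} (h : i ≤ k) {j : ℕ} (hj : j < (states F i).n) :
    (states F k).x j = (states F i).x j ∧ (states F k).y j = (states F i).y j := by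
  induction k, h using Nat.le_induction with
  | base => exact ⟨rfl, rfl⟩
  | succ k hk ih =>
    have h1 := stable_step F k (states F k) (j := j) (lt_of_lt_of_le hj (mono_n F hk))
    exact ⟨h1.1.trans ih.1, h1.2.trans ih.2⟩

/-- **Diagonalisation lemma.** -/
theorem exists_pair (F : ℕ → List ℕ → ℕ) : ∃ x y : ℕ → ℕ,
    (∀ k, ∃ n, F k (res x n) ≤ x n) ∧ (∀ k, ∃ n, F k (res y n) ≤ y n) ∧
    ∀ n m, x n ≤ m ∨ y m ≤ n := by
  let x : ℕ → ℕ := fun j => (states F (j + 1)).x j
  let y : ℕ → ℕ := fun j => (states F (j + 1)).y j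
  have hlt : ∀ j, j < (states F (j + 1)).n := fun j => le_n F (j + 1)
  have hxy : ∀ i j, j < (states F i).n → x j = (states F i).x j ∧ y j = (states F i).y j := by
    intro i j hj
    rcases le_total i (j + 1) with h | h
    · have := stable F h hj
      exact ⟨this.1, this.2⟩
    · have := stable F h (hlt j)
      exact ⟨this.1.symm, this.2.symm⟩
  refine ⟨x, y, fun k => ?_, fun k => ?_, fun n m => ?_⟩
  · set σ := states F k with hσ
    refine ⟨σ.n, ?_⟩
    have e1 : states F (k + 1) = step F k σ := rfl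
    have e2 : (step F k σ).x = Function.update σ.x σ.n (bnd F k (res σ.x σ.n)) := rfl
    have h1 : x σ.n = bnd F k (res σ.x σ.n) := by
      rw [(hxy (k + 1) σ.n (by rw [e1]; exact n_lt_step F k σ)).1, e1, e2, Function.update_self]
    have h2 : res x σ.n = res σ.x σ.n := res_congr (fun j hj => (hxy k j hj).1)
    rw [h1, h2]
    exact le_bnd F (le_refl k) _
  · set σ := states F k with hσ
    set m := max (σ.n + 1) (bnd F k (res σ.x σ.n)) with hm
    refine ⟨m, ?_⟩
    have e1 : states F (k + 1) = step F k σ := rfl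
    have e2 : (step F k σ).y = Function.update σ.y m (bnd F k (res σ.y m)) := rfl
    have e3 : (step F k σ).n = max (m + 1) (bnd F k (res σ.y m)) := rfl
    have h1 : y m = bnd F k (res σ.y m) := by
      rw [(hxy (k + 1) m (by rw [e1, e3]; omega)).2, e1, e2, Function.update_self]
    have h2 : res y m = res σ.y m := res_congr (fun j hj => by
      rw [(hxy (k + 1) j (by rw [e1, e3]; omega)).2, e1, e2, Function.update_of_ne (by omega)])
    rw [h1, h2]
    exact le_bnd F (le_refl k) _
  · set i := max (n + 1) (m + 1) with hi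
    have h1 := (hxy i n (lt_of_lt_of_le (hlt n) (mono_n F (by omega)))).1
    have h2 := (hxy i m (lt_of_lt_of_le (hlt m) (mono_n F (by omega)))).2
    rw [h1, h2]
    exact (inv_states F i).c n m

/-- version for a countable set of bounding functions -/
theorem exists_pair_of_countable {𝓕 : Set (List ℕ → ℕ)} (h : 𝓕.Countable) : ∃ x y : ℕ → ℕ,
    (∀ F ∈ 𝓕, ∃ n, F (res x n) ≤ x n) ∧ (∀ F ∈ 𝓕, ∃ n, F (res y n) ≤ y n) ∧
    ∀ n m, x n ≤ m ∨ y m ≤ n := by
  rcases 𝓕.eq_empty_or_nonempty with rfl | hne
  · exact ⟨fun _ => 0, fun _ => 0, by simp, by simp, by simp⟩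
  · obtain ⟨F, hF⟩ := h.exists_eq_range hne
    obtain ⟨x, y, h1, h2, h3⟩ := exists_pair F
    refine ⟨x, y, ?_, ?_, h3⟩
    · intro G hG
      rw [hF] at hG
      obtain ⟨k, rfl⟩ := hG
      exact h1 k
    · intro G hG
      rw [hF] at hG
      obtain ⟨k, rfl⟩ := hG
      exact h2 k

end MP2757db
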