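import Mathlib

/-!
A well-order of type `ω₁` on a set of cardinality `ℵ₁`.
-/

open Cardinal

namespace MP2757db

/-- on a type of cardinality `ℵ₁` there is a well-order all of whose initial segments are countable -/
lemma exists_wo_countable {Φ : Type*} (h : #Φ = ℵ₁) :
    ∃ r : Φ → Φ → Prop, IsWellOrder Φ r ∧ ∀ a, {b | r b a}.Countable := by
  obtain ⟨r, wo, hr⟩ := Cardinal.exists_ord_eq Φ
  refine ⟨r, wo, fun a => ?_⟩
  have h1 := Ordinal.card_typein (r := r) a
  have h2 := Cardinal.card_typein_lt (r := r) a hr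
  rw [h, h1] at h2
  exact Cardinal.le_aleph0_iff_set_countable.mp (Cardinal.lt_aleph_one_iff.mp h2)

end MP2757db
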