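import Pool.Agent.Lib.MP_2757db_lc.Basic
import Pool.Agent.Lib.MP_2757db_lc.Pair
import Pool.Agent.Lib.MP_2757db_lc.WO

/-!
Under CH there is a Lindelöf tree whose square is not Lindelöf.
-/

open Cardinal

namespace MP2757db

/-- the tree `ω^{<ω} ∪ A` -/
inductive Node (A : Set (ℕ → ℕ)) : Type
  | fin : List ℕ → Node A
  | inf : A → Node A

namespace Node

variable {A : Set (ℕ → ℕ)}

/-- end-extension -/
def le : Node A → Node A → Prop
  | fin s, fin t => s <+: t
  | fin s, inf x => s = res x.1 s.length
  | inf _, fin _ => False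
  | inf x, inf y => x = y

lemma res_prefix (x : ℕ → ℕ) {n m : ℕ} (h : n ≤ m) : res x n <+: res x m := by
  obtain ⟨k, rfl⟩ := Nat.exists_eq_add_of_le h
  unfold res
  rw [List.range_add]
  simp

lemma eq_res_of_prefix {x : ℕ → ℕ} {s : List ℕ} {n : ℕ} (h : s <+: res x n) : s = res x s.length := by
  have h1 : s.length ≤ n := by simpa using h.length_le
  have h2 := res_prefix x h1
  exact List.IsPrefix.eq_of_length (List.prefix_of_prefix_length_le h h2 (by simp)) (by simp)

instance : PartialOrder (Node A) where
  le := le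
  le_refl a := by
    cases a with
    | fin s => exact List.prefix_refl s
    | inf x => exact rfl
  le_trans a b c hab hbc := by
    cases a with
    | fin s =>
      cases b with
      | fin t =>
        cases c with
        | fin u => exact List.IsPrefix.trans hab hbc
        | inf z =>
          have h1 : s <+: t := hab
          have h2 : t = res z.1 t.length := hbc
          rw [h2] at h1
          exact eq_res_of_prefix h1
      | inf y =>
        cases c with
        | fin u => exact absurd hbc (by intro h; exact h)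
        | inf z =>
          have h2 : y = z := hbc
          subst h2
          exact hab
    | inf x =>
      cases b with
      | fin t => exact absurd hab (by intro h; exact h)
      | inf y =>
        have h1 : x = y := hab
        subst h1
        exact hbc
  le_antisymm a b hab hba := by
    cases a with
    | fin s =>
      cases b with
      | fin t =>
        have h1 : s <+: t := hab
        have h2 : t <+: s := hba
        rw [h1.eq_of_length (le_antisymm h1.length_le h2.length_le)]
      | inf y => exact absurd hba (by intro h; exact h)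
    | inf x =>
      cases b with
      | fin t => exact absurd hab (by intro h; exact h)
      | inf y =>
        have h1 : x = y := hab
        rw [h1]

lemma fin_le_fin {s t : List ℕ} : (fin s : Node A) ≤ fin t ↔ s <+: t := Iff.rfl
lemma fin_le_inf {s : List ℕ} {x : A} : (fin s : Node A) ≤ inf x ↔ s = res x.1 s.length := Iff.rfl
lemma inf_le_fin {s : List ℕ} {x : A} : ¬ (inf x : Node A) ≤ fin s := fun h => h
lemma inf_le_inf {x y : A} : (inf x : Node A) ≤ inf y ↔ x = y := Iff.rfl

lemma res_le_inf (x : A) (n : ℕ) : (fin (res x.1 n) : Node A) ≤ inf x := by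
  rw [fin_le_inf, length_res]

lemma not_inf_lt {x : A} {b : Node A} : ¬ (inf x : Node A) < b := by
  intro h
  cases b with
  | fin t => exact inf_le_fin h.le
  | inf y =>
    have := inf_le_inf.mp h.le
    subst this
    exact lt_irrefl _ h

lemma fin_comp {s t : List ℕ} {x : Node A} (hs : fin s ≤ x) (ht : fin t ≤ x) (h : s.length ≤ t.length) :
    (fin s : Node A) ≤ fin t := by
  rw [fin_le_fin]
  cases x with
  | fin u => exact List.prefix_of_prefix_length_le hs ht h
  | inf x =>
    rw [fin_le_inf] at hs ht
    rw [hs, ht]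
    exact res_prefix _ h

lemma isTree : IsTree (Node A) := by
  intro x S hS hne
  have h1 : ∀ y ∈ S, ∃ s, y = fin s := by
    intro y hy
    cases y with
    | fin s => exact ⟨s, rfl⟩
    | inf z => exact absurd (hS _ hy) not_inf_lt
  have h2 : ∃ n, ∃ s, fin s ∈ S ∧ s.length = n := by
    obtain ⟨y, hy⟩ := hne
    obtain ⟨s, rfl⟩ := h1 y hy
    exact ⟨_, s, hy, rfl⟩
  classical
  obtain ⟨s, hs, hlen⟩ := Nat.find_spec h2
  refine ⟨fin s, hs, fun y hy => ?_⟩
  obtain ⟨t, rfl⟩ := h1 y hy
  exact fin_comp (hS _ hs).le (hS _ hy).le (by rw [hlen]; exact Nat.find_min' h2 ⟨t, hy, rfl⟩)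

/-- the entry of a node above `fin s` at position `s.length` -/
def entry (s : List ℕ) : Node A → ℕ
  | fin t => t.getD s.length 0
  | inf x => x.1 s.length

lemma entry_le {s : List ℕ} {u w : Node A} (hsu : fin s < u) (huw : u ≤ w) : entry s u = entry s w := by
  cases u with
  | fin t =>
    have h1 : s <+: t := hsu.le
    have h3 : s.length < t.length := by
      rcases lt_or_eq_of_le h1.length_le with h | h
      · exact h
      · exact absurd (congrArg fin (h1.eq_of_length h)) hsu.ne
    cases w with
    | fin v =>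
      obtain ⟨r, rfl⟩ : t <+: v := huw
      simp only [entry, List.getD_eq_getElem?_getD]
      rw [List.getElem?_append_left h3]
    | inf x =>
      have h2 : t = res x.1 t.length := huw
      simp only [entry]
      have h4 : s.length < (res x.1 t.length).length := by simpa using h3
      rw [h2, List.getD_eq_getElem _ _ h4]
      simp [res]
  | inf x =>
    cases w with
    | fin t => exact absurd huw inf_le_fin
    | inf y =>
      have := inf_le_inf.mp huw
      subst this
      rfl

/-- `ω^{<ω} ∪ A` is Lindelöf as soon as every finitely branching subtree of `ω^{<ω}` has only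
countably many branches in `A` -/
lemma lindelof (hA : ∀ F : List ℕ → ℕ, {x : A | ∀ n, x.1 n < F (res x.1 n)}.Countable) :
    Lindelof (fineWedge (Node A)) := by
  classical
  refine lindelof_of_combin isTree (fun E hE => ?_)
  let F : List ℕ → ℕ := fun s => (E (fin s)).sup (fun u => entry s u + 1)
  refine ⟨Set.range fin ∪ inf '' {x : A | ∀ n, x.1 n < F (res x.1 n)},
    (Set.countable_range _).union ((hA F).image _), fun w => ?_⟩
  cases w with
  | fin s => exact ⟨fin s, Or.inl ⟨s, rfl⟩, le_refl _, fun u hu => not_le_of_gt (hE _ u hu)⟩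
  | inf x =>
    by_cases h : ∀ n, x.1 n < F (res x.1 n)
    · exact ⟨inf x, Or.inr ⟨x, h, rfl⟩, le_refl _, fun u hu => not_le_of_gt (hE _ u hu)⟩
    · push Not at h
      obtain ⟨n, hn⟩ := h
      refine ⟨fin (res x.1 n), Or.inl ⟨_, rfl⟩, res_le_inf x n, fun u hu hux => ?_⟩
      have h1 := entry_le (hE _ u hu) hux
      have h2 : entry (res x.1 n) u + 1 ≤ F (res x.1 n) :=
        Finset.le_sup (f := fun u => entry (res x.1 n) u + 1) hu
      have h3 : entry (res x.1 n) (inf x) = x.1 n := by simp [entry]
      omega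

lemma fin_lt_append (s : List ℕ) (k : ℕ) : (fin s : Node A) < fin (s ++ [k]) := by
  refine lt_of_le_of_ne (fin_le_fin.mpr (List.prefix_append _ _)) (fun h => ?_)
  injection h with h
  have := congrArg List.length h
  simp at this

/-- if `s ≤ x` then the next node below `x` -/
lemma append_le_inf {s : List ℕ} {x : A} (h : (fin s : Node A) ≤ inf x) :
    (fin (s ++ [x.1 s.length]) : Node A) ≤ inf x := by
  rw [fin_le_inf] at h ⊢
  rw [List.length_append, List.length_singleton, res_succ, ← h]

open scoped Classical in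
/-- the removed cones -/
noncomputable def E1 (p q : A → ℕ → ℕ) : Node A → Node A → Finset (Node A)
  | fin s, fin t => (Finset.range (s.length + t.length + 1)).image (fun k => fin (s ++ [k]))
  | inf _, fin _ => ∅
  | fin s, inf y => {fin (s ++ [q y s.length])}
  | inf _, inf _ => ∅

open scoped Classical in
/-- the removed cones -/
noncomputable def E2 (p q : A → ℕ → ℕ) : Node A → Node A → Finset (Node A)
  | fin s, fin t => (Finset.range (s.length + t.length + 1)).image (fun k => fin (t ++ [k]))
  | inf x, fin t => {fin (t ++ [p x t.length])}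
  | fin _, inf _ => ∅
  | inf _, inf _ => ∅

lemma lt_of_mem_E1 {p q : A → ℕ → ℕ} {u v w : Node A} (h : w ∈ E1 p q u v) : u < w := by
  cases u with
  | fin s =>
    cases v with
    | fin t =>
      simp only [E1, Finset.mem_image] at h
      obtain ⟨k, _, rfl⟩ := h
      exact fin_lt_append s k
    | inf y =>
      simp only [E1, Finset.mem_singleton] at h
      subst h
      exact fin_lt_append s _
  | inf x => cases v <;> simp [E1] at h

lemma lt_of_mem_E2 {p q : A → ℕ → ℕ} {u v w : Node A} (h : w ∈ E2 p q u v) : v < w := by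
  cases v with
  | fin t =>
    cases u with
    | fin s =>
      simp only [E2, Finset.mem_image] at h
      obtain ⟨k, _, rfl⟩ := h
      exact fin_lt_append t k
    | inf x =>
      simp only [E2, Finset.mem_singleton] at h
      subst h
      exact fin_lt_append t _
  | inf y => cases u <;> simp [E2] at h

/-- the neighbourhoods -/
def Nb (p q : A → ℕ → ℕ) (u v : Node A) : Set (Node A × Node A) :=
  {x | u ≤ x ∧ ∀ w ∈ E1 p q u v, ¬ w ≤ x} ×ˢ {y | v ≤ y ∧ ∀ w ∈ E2 p q u v, ¬ w ≤ y}

lemma isOpen_Nb (p q : A → ℕ → ℕ) (u v : Node A) :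
    @IsOpen _ (squareTopology (Node A)) (Nb p q u v) := by
  let _ := fineWedge (Node A)
  exact IsOpen.prod (isOpen_basic u _) (isOpen_basic v _)

lemma mem_Nb (p q : A → ℕ → ℕ) (u v : Node A) : (u, v) ∈ Nb p q u v :=
  ⟨⟨le_refl _, fun _ hw => not_le_of_gt (lt_of_mem_E1 hw)⟩,
    ⟨le_refl _, fun _ hw => not_le_of_gt (lt_of_mem_E2 hw)⟩⟩

/-- a special pair is only in its own neighbourhood -/
lemma eq_of_mem_Nb {p q : A → ℕ → ℕ} {x y : A} (hp : p x = y.1) (hq : q y = x.1)
    (hxy : ∀ n m, x.1 n ≤ m ∨ y.1 m ≤ n) {u v : Node A}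
    (h : ((inf x, inf y) : Node A × Node A) ∈ Nb p q u v) : u = inf x ∧ v = inf y := by
  obtain ⟨⟨h1, h2⟩, ⟨h3, h4⟩⟩ := h
  cases u with
  | fin s =>
    cases v with
    | fin t =>
      exfalso
      have h5 : ¬ x.1 s.length < s.length + t.length + 1 := fun hlt =>
        h2 (fin (s ++ [x.1 s.length])) (by
          simp only [E1, Finset.mem_image, Finset.mem_range]
          exact ⟨_, hlt, rfl⟩) (append_le_inf h1)
      have h6 : ¬ y.1 t.length < s.length + t.length + 1 := fun hlt =>
        h4 (fin (t ++ [y.1 t.length])) (by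
          simp only [E2, Finset.mem_image, Finset.mem_range]
          exact ⟨_, hlt, rfl⟩) (append_le_inf h3)
      have := hxy s.length t.length
      omega
    | inf z =>
      exfalso
      have hz : z = y := inf_le_inf.mp h3
      subst hz
      refine h2 (fin (s ++ [q z s.length])) (by simp [E1]) ?_
      rw [hq]
      exact append_le_inf h1
  | inf z =>
    have hz : z = x := inf_le_inf.mp h1
    subst hz
    cases v with
    | fin t =>
      exfalso
      refine h4 (fin (t ++ [p z t.length])) (by simp [E2]) ?_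
      rw [hp]
      exact append_le_inf h3
    | inf w =>
      have hw : w = y := inf_le_inf.mp h3
      subst hw
      exact ⟨rfl, rfl⟩

/-- the square is not Lindelöf -/
lemma not_lindelof {Φ : Type*} (hΦ : ¬ Countable Φ) (x y : Φ → A) (hx : Function.Injective x)
    (hy : Function.Injective y) (hxy : ∀ a n m, (x a).1 n ≤ m ∨ (y a).1 m ≤ n) :
    ¬ Lindelof (squareTopology (Node A)) := by
  classical
  intro hL
  obtain ⟨p, hp⟩ : ∃ p : A → ℕ → ℕ, ∀ a, p (x a) = (y a).1 := by
    refine ⟨fun z => if h : ∃ a, x a = z then (y h.choose).1 else 0, fun a => ?_⟩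
    have h : ∃ b, x b = x a := ⟨a, rfl⟩
    dsimp only
    rw [dif_pos h, hx h.choose_spec]
  obtain ⟨q, hq⟩ : ∃ q : A → ℕ → ℕ, ∀ a, q (y a) = (x a).1 := by
    refine ⟨fun z => if h : ∃ a, y a = z then (x h.choose).1 else 0, fun a => ?_⟩
    have h : ∃ b, y b = y a := ⟨a, rfl⟩
    dsimp only
    rw [dif_pos h, hy h.choose_spec]
  obtain ⟨𝒱, h𝒱, hc, hcov⟩ := hL (Set.range (fun w : Node A × Node A => Nb p q w.1 w.2)) (by
    rintro U ⟨w, rfl⟩
    exact isOpen_Nb p q w.1 w.2) (by
    rw [Set.eq_univ_iff_forall]
    intro w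
    exact ⟨_, ⟨w, rfl⟩, mem_Nb p q w.1 w.2⟩)
  have h1 : ∀ a : Φ, Nb p q (inf (x a)) (inf (y a)) ∈ 𝒱 := by
    intro a
    have ha : ((inf (x a), inf (y a)) : Node A × Node A) ∈ ⋃₀ 𝒱 := by rw [hcov]; trivial
    obtain ⟨V, hV, haV⟩ := ha
    obtain ⟨w, rfl⟩ := h𝒱 hV
    obtain ⟨h2, h3⟩ := eq_of_mem_Nb (hp a) (hq a) (hxy a) haV
    dsimp only at hV
    rw [h2, h3] at hV
    exact hV
  apply hΦ
  have : Countable 𝒱 := hc
  let f : Φ → 𝒱 := fun a => ⟨_, h1 a⟩
  have hf : Function.Injective f := by
    intro a b hab
    have h2 : Nb p q (inf (x a)) (inf (y a)) = Nb p q (inf (x b)) (inf (y b)) := congrArg Subtype.val hab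
    have h3 : ((inf (x b), inf (y b)) : Node A × Node A) ∈ Nb p q (inf (x a)) (inf (y a)) := by
      rw [h2]; exact mem_Nb _ _ _ _
    obtain ⟨h4, _⟩ := eq_of_mem_Nb (hp b) (hq b) (hxy b) h3
    injection h4 with h4
    exact hx h4
  exact hf.countable

end Node

/-- **Under CH there is a Lindelöf tree whose square is not Lindelöf.** -/
theorem counter (hCH : (𝔠 : Cardinal.{0}) = ℵ₁) : ∃ (T : Type) (_ : PartialOrder T), IsTree T ∧
    Lindelof (fineWedge T) ∧ ¬ Lindelof (squareTopology T) := by
  classical
  have hcard : #(List ℕ → ℕ) = ℵ₁ := by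
    rw [← hCH]
    simp
  obtain ⟨r, wo, hr⟩ := exists_wo_countable hcard
  -- choose the pairs by recursion
  let fam : ∀ a : List ℕ → ℕ, (∀ b, r b a → (ℕ → ℕ) × (ℕ → ℕ)) → Set (List ℕ → ℕ) := fun a g =>
    ({b | r b a} ∪ {a}) ∪ (Set.range (fun b : {b // r b a} => fun s : List ℕ => (g b.1 b.2).1 s.length + 1) ∪
      Set.range (fun b : {b // r b a} => fun s : List ℕ => (g b.1 b.2).2 s.length + 1))
  have hfam : ∀ a g, (fam a g).Countable := by
    intro a g
    have : Countable {b // r b a} := hr a
    exact ((hr a).union (Set.countable_singleton a)).union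
      ((Set.countable_range _).union (Set.countable_range _))
  have hex : ∀ a (g : ∀ b, r b a → (ℕ → ℕ) × (ℕ → ℕ)), ∃ z : (ℕ → ℕ) × (ℕ → ℕ),
      (∀ F ∈ fam a g, ∃ n, F (res z.1 n) ≤ z.1 n) ∧ (∀ F ∈ fam a g, ∃ n, F (res z.2 n) ≤ z.2 n) ∧
      ∀ n m, z.1 n ≤ m ∨ z.2 m ≤ n := by
    intro a g
    obtain ⟨x, y, h1, h2, h3⟩ := exists_pair_of_countable (hfam a g)
    exact ⟨(x, y), h1, h2, h3⟩
  choose f hf using hex
  let z : (List ℕ → ℕ) → (ℕ → ℕ) × (ℕ → ℕ) := wo.wf.fix f
  have hz : ∀ a, z a = f a (fun b _ => z b) := fun a => WellFounded.fix_eq _ _ _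
  have hspec := fun a => hf a (fun b _ => z b)
  simp only [← hz] at hspec
  have hne : ∀ a b, r b a → (z a).1 ≠ (z b).1 ∧ (z a).2 ≠ (z b).2 := by
    intro a b hba
    constructor
    · intro heq
      obtain ⟨n, hn⟩ := (hspec a).1 (fun s => (z b).1 s.length + 1)
        (Or.inr (Or.inl ⟨⟨b, hba⟩, rfl⟩))
      simp only [length_res] at hn
      rw [heq] at hn
      omega
    · intro heq
      obtain ⟨n, hn⟩ := (hspec a).2.1 (fun s => (z b).2 s.length + 1)
        (Or.inr (Or.inr ⟨⟨b, hba⟩, rfl⟩))
      simp only [length_res] at hn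
      rw [heq] at hn
      omega
  have hinj1 : Function.Injective (fun a => (z a).1) := by
    intro a b hab
    rcases trichotomous_of r a b with h | h | h
    · exact absurd hab.symm (hne b a h).1
    · exact h
    · exact absurd hab (hne a b h).1
  have hinj2 : Function.Injective (fun a => (z a).2) := by
    intro a b hab
    rcases trichotomous_of r a b with h | h | h
    · exact absurd hab.symm (hne b a h).2
    · exact h
    · exact absurd hab (hne a b h).2
  let A : Set (ℕ → ℕ) := Set.range (fun a => (z a).1) ∪ Set.range (fun a => (z a).2)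
  refine ⟨Node A, inferInstance, Node.isTree, Node.lindelof ?_, ?_⟩
  · intro F
    have h1 : {a | r a F}.Countable := hr F
    have h2 : {x : A | ∀ n, x.1 n < F (res x.1 n)} ⊆
        Subtype.val ⁻¹' ((fun a => (z a).1) '' {a | r a F} ∪ (fun a => (z a).2) '' {a | r a F}) := by
      rintro ⟨x, hx⟩ hlt
      simp only [Set.mem_ofPred_eq] at hlt
      rcases hx with ⟨a, rfl⟩ | ⟨a, rfl⟩
      · left
        refine ⟨a, ?_, rfl⟩
        by_contra hnr
        have hF : F ∈ fam a (fun b _ => z b) := by
          rcases trichotomous_of r a F with h | h | h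
          · exact absurd h hnr
          · exact Or.inl (Or.inr h.symm)
          · exact Or.inl (Or.inl h)
        obtain ⟨n, hn⟩ := (hspec a).1 F hF
        have := hlt n
        dsimp only at this
        omega
      · right
        refine ⟨a, ?_, rfl⟩
        by_contra hnr
        have hF : F ∈ fam a (fun b _ => z b) := by
          rcases trichotomous_of r a F with h | h | h
          · exact absurd h hnr
          · exact Or.inl (Or.inr h.symm)
          · exact Or.inl (Or.inl h)
        obtain ⟨n, hn⟩ := (hspec a).2.1 F hF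
        have := hlt n
        dsimp only at this
        omega
    exact Set.Countable.mono h2 (((h1.image _).union (h1.image _)).preimage Subtype.val_injective)
  · refine Node.not_lindelof (Φ := List ℕ → ℕ) ?_ (fun a => ⟨(z a).1, Or.inl ⟨a, rfl⟩⟩)
      (fun a => ⟨(z a).2, Or.inr ⟨a, rfl⟩⟩) ?_ ?_ ?_
    · intro hc
      have := Cardinal.mk_le_aleph0_iff.mpr hc
      rw [hcard] at this
      exact absurd this (not_le_of_gt Cardinal.aleph0_lt_aleph_one)
    · intro a b hab
      exact hinj1 (congrArg Subtype.val hab)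
    · intro a b hab
      exact hinj2 (congrArg Subtype.val hab)
    · intro a n m
      exact (hspec a).2.2 n m

end MP2757db
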