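import Mathlib

/-!
Definitions for problem MP_2757db_lc: trees, the fine wedge topology, the Lindelöf property,
and Martin's axiom for `ℵ₁` dense sets.
-/

open Cardinal

namespace MP2757db

/-- The partial order `T` is a (set-theoretic) tree: for every node `x` the set of strict
predecessors of `x` is well-ordered, i.e. every nonempty set of strict predecessors of `x`
has a least element. -/
def IsTree (T : Type*) [PartialOrder T] : Prop :=
  ∀ (x : T) (S : Set T), (∀ y ∈ S, y < x) → S.Nonempty → ∃ m ∈ S, ∀ y ∈ S, m ≤ y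

/-- The fine wedge topology on `T`: it is generated by the sets `V_t = {s | t ≤ s}` and
their complements. -/
@[reducible] def fineWedge (T : Type*) [PartialOrder T] : TopologicalSpace T :=
  TopologicalSpace.generateFrom
    ({V | ∃ t : T, V = {s | t ≤ s}} ∪ {V | ∃ t : T, V = {s | t ≤ s}ᶜ})

/-- The topology `τ` on `X` is Lindelöf: every open cover has a countable subcover. -/
def Lindelof {X : Type*} (τ : TopologicalSpace X) : Prop :=
  ∀ 𝒰 : Set (Set X), (∀ U ∈ 𝒰, @IsOpen X τ U) → ⋃₀ 𝒰 = Set.univ →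
    ∃ 𝒱 ⊆ 𝒰, 𝒱.Countable ∧ ⋃₀ 𝒱 = Set.univ

/-- The product topology on `T × T`, both factors carrying the fine wedge topology. -/
@[reducible] def squareTopology (T : Type*) [PartialOrder T] : TopologicalSpace (T × T) :=
  @instTopologicalSpaceProd T T (fineWedge T) (fineWedge T)

/-- Martin's axiom for `ℵ₁` dense sets: for every nonempty ccc preorder `P` and every family
of at most `ℵ₁` dense subsets of `P` there is a filter on `P` meeting all of them. -/
def MartinAxiomAlephOne.{u} : Prop :=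
  ∀ (P : Type u) [Preorder P] [Nonempty P],
    -- ccc: every set of pairwise incompatible elements is countable
    (∀ A : Set P, (∀ p ∈ A, ∀ q ∈ A, p ≠ q → ¬ ∃ r, r ≤ p ∧ r ≤ q) → A.Countable) →
    ∀ 𝒟 : Set (Set P), #𝒟 ≤ ℵ₁ → (∀ D ∈ 𝒟, ∀ p, ∃ q ∈ D, q ≤ p) →
      ∃ G : Set P, G.Nonempty ∧ (∀ p ∈ G, ∀ q, p ≤ q → q ∈ G) ∧
        (∀ p ∈ G, ∀ q ∈ G, ∃ r ∈ G, r ≤ p ∧ r ≤ q) ∧ ∀ D ∈ 𝒟, (G ∩ D).Nonempty

end MP2757db
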