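import Mathlib

/-!
Refining uncountable families of finite conditions, and the ccc of a poset of finite
approximations attached to a relation along a tree without uncountable chains.
-/

namespace MP2757db

/-- an uncountable set contains an uncountable subset on which `g` is constant or injective -/
lemma refine_one {P Y : Type*} {S : Set P} (hS : ¬ S.Countable) (g : P → Y) :
    ∃ S' ⊆ S, ¬ S'.Countable ∧ ((∀ p ∈ S', ∀ q ∈ S', g p = g q) ∨ Set.InjOn g S') := by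
  classical
  by_cases h : ∃ y, ¬ {p ∈ S | g p = y}.Countable
  · obtain ⟨y, hy⟩ := h
    refine ⟨{p ∈ S | g p = y}, Set.sep_subset _ _, hy, Or.inl ?_⟩
    intro p hp q hq
    rw [hp.2, hq.2]
  · push Not at h
    obtain ⟨S', hS', hb⟩ := Set.exists_subset_bijOn S g
    refine ⟨S', hS', ?_, Or.inr hb.injOn⟩
    intro hc
    apply hS
    have h1 : (g '' S).Countable := by
      rw [← hb.image_eq]; exact hc.image g
    have h2 : S ⊆ ⋃ y ∈ g '' S, {p ∈ S | g p = y} := by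
      intro p hp
      rw [Set.mem_iUnion₂]
      exact ⟨g p, ⟨p, hp, rfl⟩, hp, rfl⟩
    exact Set.Countable.mono h2 (h1.biUnion (fun y _ => h y))

/-- the same for finitely many functions -/
lemma refine_fin {P Y : Type*} (g : ℕ → P → Y) (N : ℕ) {S : Set P} (hS : ¬ S.Countable) :
    ∃ S' ⊆ S, ¬ S'.Countable ∧
      ∀ i < N, (∀ p ∈ S', ∀ q ∈ S', g i p = g i q) ∨ Set.InjOn (g i) S' := by
  induction N with
  | zero => exact ⟨S, Set.Subset.refl _, hS, fun i hi => absurd hi (by omega)⟩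
  | succ N ih =>
    obtain ⟨S1, h1, h2, h3⟩ := ih
    obtain ⟨S2, h4, h5, h6⟩ := refine_one h2 (g N)
    refine ⟨S2, h4.trans h1, h5, fun i hi => ?_⟩
    rcases Nat.lt_succ_iff_lt_or_eq.mp hi with h | rfl
    · rcases h3 i h with h7 | h7
      · exact Or.inl (fun p hp q hq => h7 p (h4 hp) q (h4 hq))
      · exact Or.inr (h7.mono h4)
    · exact h6

/-- validity of a finite approximation -/
def Valid {T W : Type*} (R : T → ℕ → W → Prop) (c : Finset (ℕ × T × ℕ) × Finset (ℕ × W)) : Prop :=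
  ∀ a ∈ c.1, ∀ b ∈ c.2, a.1 = b.1 → ¬ R a.2.1 a.2.2 b.2

/-- the poset of finite approximations, ordered by reverse inclusion -/
def Cond {T W : Type*} (R : T → ℕ → W → Prop) : Type _ := {c // Valid R c}

instance {T W : Type*} (R : T → ℕ → W → Prop) : Preorder (Cond R) where
  le p q := q.1.1 ⊆ p.1.1 ∧ q.1.2 ⊆ p.1.2
  le_refl p := ⟨Finset.Subset.refl _, Finset.Subset.refl _⟩
  le_trans p q r h1 h2 := ⟨h2.1.trans h1.1, h2.2.trans h1.2⟩

lemma Cond.le_iff {T W : Type*} {R : T → ℕ → W → Prop} {p q : Cond R} :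
    p ≤ q ↔ q.1.1 ⊆ p.1.1 ∧ q.1.2 ⊆ p.1.2 := Iff.rfl

section

variable {T W : Type*} [PartialOrder T] {R : T → ℕ → W → Prop} {x : W → T}


omit [PartialOrder T] in
lemma clash {p q : Cond R} (h : ¬ ∃ r, r ≤ p ∧ r ≤ q) :
    (∃ a ∈ p.1.1, ∃ b ∈ q.1.2, a.1 = b.1 ∧ R a.2.1 a.2.2 b.2) ∨
    (∃ a ∈ q.1.1, ∃ b ∈ p.1.2, a.1 = b.1 ∧ R a.2.1 a.2.2 b.2) := by
  classical
  by_contra hcon
  push Not at hcon
  obtain ⟨h1, h2⟩ := hcon
  refine h ⟨⟨(p.1.1 ∪ q.1.1, p.1.2 ∪ q.1.2), ?_⟩, ?_, ?_⟩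
  · intro a ha b hb hab
    rcases Finset.mem_union.mp ha with ha | ha <;> rcases Finset.mem_union.mp hb with hb | hb
    · exact p.2 a ha b hb hab
    · exact h1 a ha b hb hab
    · exact h2 a ha b hb hab
    · exact q.2 a ha b hb hab
  · exact ⟨Finset.subset_union_left, Finset.subset_union_left⟩
  · exact ⟨Finset.subset_union_right, Finset.subset_union_right⟩

/-- **ccc** of the poset of finite approximations -/
theorem ccc (hcomp : ∀ {x y z : T}, y ≤ x → z ≤ x → y ≤ z ∨ z ≤ y)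
    (hpred : ∀ x : T, {y | y < x}.Countable)
    (hchain : ∀ B : Set T, (∀ y ∈ B, ∀ z ∈ B, y ≤ z ∨ z ≤ y) → B.Countable)
    (hR : ∀ s k α, R s k α → s < x α) (𝒜 : Set (Cond R))
    (h𝒜 : ∀ p ∈ 𝒜, ∀ q ∈ 𝒜, p ≠ q → ¬ ∃ r, r ≤ p ∧ r ≤ q) : 𝒜.Countable := by
  classical
  by_contra hunc
  -- bound the sizes
  have h1 : ∃ N : ℕ, ¬ {p ∈ 𝒜 | p.1.1.card ≤ N ∧ p.1.2.card ≤ N}.Countable := by
    by_contra hcon
    push Not at hcon
    apply hunc
    have h2 : 𝒜 ⊆ ⋃ N : ℕ, {p ∈ 𝒜 | p.1.1.card ≤ N ∧ p.1.2.card ≤ N} := by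
      intro p hp
      rw [Set.mem_iUnion]
      exact ⟨max p.1.1.card p.1.2.card, hp, le_max_left _ _, le_max_right _ _⟩
    exact Set.Countable.mono h2 (Set.countable_iUnion hcon)
  obtain ⟨N, hN⟩ := h1
  let g : ℕ → Cond R → Option (ℕ × T × ℕ) := fun i p => p.1.1.toList[i]?
  let e : ℕ → Cond R → Option (ℕ × W) := fun i p => p.1.2.toList[i]?
  obtain ⟨S, hS1, hS2, hS3⟩ := refine_fin g N hN
  have hS𝒜 : ∀ p ∈ S, p ∈ 𝒜 := fun p hp => (hS1 hp).1
  have hg : ∀ p ∈ S, ∀ a ∈ p.1.1, ∃ i < N, g i p = some a := by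
    intro p hp a ha
    rw [← Finset.mem_toList] at ha
    obtain ⟨i, hi⟩ := List.mem_iff_getElem?.mp ha
    refine ⟨i, ?_, hi⟩
    have h3 := (List.getElem?_eq_some_iff.mp hi).1
    rw [Finset.length_toList] at h3
    exact lt_of_lt_of_le h3 (hS1 hp).2.1
  have he : ∀ p ∈ S, ∀ b ∈ p.1.2, ∃ j < N, e j p = some b := by
    intro p hp b hb
    rw [← Finset.mem_toList] at hb
    obtain ⟨i, hi⟩ := List.mem_iff_getElem?.mp hb
    refine ⟨i, ?_, hi⟩
    have h3 := (List.getElem?_eq_some_iff.mp hi).1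
    rw [Finset.length_toList] at h3
    exact lt_of_lt_of_le h3 (hS1 hp).2.2
  have hg' : ∀ p i a, g i p = some a → a ∈ p.1.1 := by
    intro p i a h
    rw [← Finset.mem_toList]
    exact List.mem_of_getElem? h
  have he' : ∀ p i b, e i p = some b → b ∈ p.1.2 := by
    intro p i b h
    rw [← Finset.mem_toList]
    exact List.mem_of_getElem? h
  -- an ultrafilter on `S` extending the cocountable filter
  have hneb : (Filter.cocountable : Filter S).NeBot := by
    rw [Filter.neBot_iff]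
    intro hbot
    have h3 : (∅ : Set S) ∈ (Filter.cocountable : Filter S) := by rw [hbot]; trivial
    rw [Filter.mem_cocountable, Set.compl_empty] at h3
    apply hS2
    have : Countable S := Set.countable_univ_iff.mp h3
    exact this
  let 𝒰 : Ultrafilter S := Ultrafilter.of Filter.cocountable
  have h𝒰 : (𝒰 : Filter S) ≤ Filter.cocountable := Ultrafilter.of_le _
  have hev : ∀ Z : Set S, Z.Countable → ∀ᶠ q in (𝒰 : Filter S), q ∉ Z := by
    intro Z hZ
    apply h𝒰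
    show Zᶜ ∈ Filter.cocountable
    rw [Filter.mem_cocountable, compl_compl]
    exact hZ
  -- main step
  have hB : ∀ p : S, ∀ᶠ q in (𝒰 : Filter S), ∃ i < N, ∃ j < N, ∃ a b, g i p.1 = some a ∧
      e j q.1 = some b ∧ a.1 = b.1 ∧ R a.2.1 a.2.2 b.2 := by
    intro p
    -- the set of `q` clashing in the other way is countable
    have hC : {q : S | ∃ a ∈ q.1.1.1, ∃ b ∈ p.1.1.2, a.1 = b.1 ∧ R a.2.1 a.2.2 b.2}.Countable := by
      have h4 : {q : S | ∃ a ∈ q.1.1.1, ∃ b ∈ p.1.1.2, a.1 = b.1 ∧ R a.2.1 a.2.2 b.2} ⊆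
          ⋃ i ∈ Finset.range N, {q : S | ∃ a b, g i q.1 = some a ∧ b ∈ p.1.1.2 ∧ a.1 = b.1 ∧
            R a.2.1 a.2.2 b.2} := by
        rintro q ⟨a, ha, b, hb, hab, hr⟩
        obtain ⟨i, hi, hgi⟩ := hg q.1 q.2 a ha
        rw [Set.mem_iUnion₂]
        exact ⟨i, Finset.mem_range.mpr hi, a, b, hgi, hb, hab, hr⟩
      refine Set.Countable.mono h4 (Set.Countable.biUnion (Finset.countable_toSet _) (fun i hi => ?_))
      rcases hS3 i (Finset.mem_range.mp hi) with hc | hinj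
      · have h5 : {q : S | ∃ a b, g i q.1 = some a ∧ b ∈ p.1.1.2 ∧ a.1 = b.1 ∧
            R a.2.1 a.2.2 b.2} = ∅ := by
          rw [Set.eq_empty_iff_forall_notMem]
          rintro q ⟨a, b, h6, h7, h8, h9⟩
          rw [hc q.1 q.2 p.1 p.2] at h6
          exact p.1.2 a (hg' _ _ _ h6) b h7 h8 h9
        rw [h5]; exact Set.countable_empty
      · -- injective case
        have h6 : {t : T | ∃ b ∈ p.1.1.2, t < x b.2}.Countable := by
          have h7 : {t : T | ∃ b ∈ p.1.1.2, t < x b.2} ⊆ ⋃ b ∈ p.1.1.2, {t | t < x b.2} := by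
            rintro t ⟨b, hb, ht⟩
            rw [Set.mem_iUnion₂]
            exact ⟨b, hb, ht⟩
          exact Set.Countable.mono h7 (Set.Countable.biUnion (Finset.countable_toSet _) (fun b _ => hpred _))
        have h8 : ((fun t : ℕ × T × ℕ => some t) '' (Set.univ ×ˢ ({t : T | ∃ b ∈ p.1.1.2, t < x b.2} ×ˢ Set.univ))).Countable :=
          ((Set.countable_univ.prod (h6.prod Set.countable_univ)).image _)
        have h9 : {q : S | ∃ a b, g i q.1 = some a ∧ b ∈ p.1.1.2 ∧ a.1 = b.1 ∧ R a.2.1 a.2.2 b.2} ⊆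
            (fun q : S => g i q.1) ⁻¹' ((fun t : ℕ × T × ℕ => some t) '' (Set.univ ×ˢ ({t : T | ∃ b ∈ p.1.1.2, t < x b.2} ×ˢ Set.univ))) := by
          rintro q ⟨a, b, h10, h11, _, h12⟩
          exact ⟨a, ⟨trivial, ⟨b, h11, hR _ _ _ h12⟩, trivial⟩, h10.symm⟩
        refine Set.Countable.mono h9 (h8.preimage ?_)
        intro q q' hqq
        exact Subtype.ext (hinj q.2 q'.2 hqq)
    filter_upwards [hev _ hC, hev {p} (Set.countable_singleton p)] with q hq1 hq2
    have hne : p.1 ≠ q.1 := fun h => hq2 (Set.mem_singleton_iff.mpr (Subtype.ext h.symm))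
    rcases clash (h𝒜 p.1 (hS𝒜 _ p.2) q.1 (hS𝒜 _ q.2) hne) with h5 | h5
    · obtain ⟨a, ha, b, hb, hab, hr⟩ := h5
      obtain ⟨i, hi, hgi⟩ := hg p.1 p.2 a ha
      obtain ⟨j, hj, hej⟩ := he q.1 q.2 b hb
      exact ⟨i, hi, j, hj, a, b, hgi, hej, hab, hr⟩
    · exact absurd h5 hq1
  have hB2 : ∀ p : S, ∃ ij : Fin N × Fin N, ∀ᶠ q in (𝒰 : Filter S), ∃ a b, g ij.1 p.1 = some a ∧
      e ij.2 q.1 = some b ∧ a.1 = b.1 ∧ R a.2.1 a.2.2 b.2 := by
    intro p
    rw [← Ultrafilter.eventually_exists_iff]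
    filter_upwards [hB p] with q hq
    obtain ⟨i, hi, j, hj, h⟩ := hq
    exact ⟨(⟨i, hi⟩, ⟨j, hj⟩), h⟩
  choose φ hφ using hB2
  -- an uncountable piece
  obtain ⟨ij, hij⟩ : ∃ ij, ¬ {p : S | φ p = ij}.Countable := by
    by_contra hcon
    push Not at hcon
    apply hS2
    have h3 : (Set.univ : Set S) ⊆ ⋃ ij, {p : S | φ p = ij} := by
      intro p _
      rw [Set.mem_iUnion]
      exact ⟨φ p, rfl⟩
    have h4 := Set.Countable.mono h3 (Set.countable_iUnion hcon)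
    have : Countable S := Set.countable_univ_iff.mp h4
    exact this
  -- the index is of injective type
  have hinj : Set.InjOn (g ij.1) S := by
    rcases hS3 ij.1 ij.1.2 with hc | hinj
    · exfalso
      have hne : {p : S | φ p = ij}.Nonempty := by
        rw [Set.nonempty_iff_ne_empty]
        intro h; rw [h] at hij; exact hij Set.countable_empty
      obtain ⟨p, hp⟩ := hne
      have h3 := hφ p
      rw [show φ p = ij from hp] at h3
      obtain ⟨q, a, b, h4, h5, h6, h7⟩ := h3.exists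
      rw [hc p.1 p.2 q.1 q.2] at h4
      exact q.1.2 a (hg' _ _ _ h4) b (he' _ _ _ h5) h6 h7
    · exact hinj
  -- the chain
  let B : Set T := {t | ∃ p : S, φ p = ij ∧ ∃ a, g ij.1 p.1 = some a ∧ a.2.1 = t}
  have hBch : B.Countable := by
    apply hchain
    rintro _ ⟨p, hp, a, ha, rfl⟩ _ ⟨p', hp', a', ha', rfl⟩
    have h3 := hφ p
    have h3' := hφ p'
    rw [hp] at h3
    rw [hp'] at h3'
    obtain ⟨q, ⟨a1, b1, h4, h5, _, h6⟩, ⟨a2, b2, h7, h8, _, h9⟩⟩ := (h3.and h3').exists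
    rw [ha] at h4
    rw [ha'] at h7
    rw [h5] at h8
    simp only [Option.some.injEq] at h4 h7 h8
    subst h4 h7 h8
    exact hcomp (hR _ _ _ h6).le (hR _ _ _ h9).le
  apply hij
  have h8 : ((fun t : ℕ × T × ℕ => some t) '' (Set.univ ×ˢ (B ×ˢ Set.univ))).Countable :=
    ((Set.countable_univ.prod (hBch.prod Set.countable_univ)).image _)
  have h9 : {p : S | φ p = ij} ⊆ (fun q : S => g ij.1 q.1) ⁻¹'
      ((fun t : ℕ × T × ℕ => some t) '' (Set.univ ×ˢ (B ×ˢ Set.univ))) := by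
    intro p hp
    have h3 := hφ p
    rw [show φ p = ij from hp] at h3
    obtain ⟨q, a, b, h4, _⟩ := h3.exists
    exact ⟨a, ⟨trivial, ⟨p, hp, a, h4, rfl⟩, trivial⟩, h4.symm⟩
  refine Set.Countable.mono h9 (h8.preimage ?_)
  intro q q' hqq
  exact Subtype.ext (hinj q.2 q'.2 hqq)

end

end MP2757db
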