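import Pool.Agent.Lib.MP_2757db_lc.Basic
import Pool.Agent.Lib.MP_2757db_lc.Refine
import Pool.Agent.Lib.MP_2757db_lc.WO

/-!
Under Martin's axiom for `ℵ₁` dense sets the square of a Lindelöf tree is Lindelöf.
-/

open Cardinal

namespace MP2757db

universe u

variable {T : Type u} [PartialOrder T]

/-- a downward closed chain in which every element has a next step is countable -/
lemma countable_of_next (hL : Lindelof (fineWedge T)) {B : Set T}
    (hdown : ∀ y ∈ B, ∀ z, z ≤ y → z ∈ B)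
    (hnext : ∀ y ∈ B, ∃ y', y < y' ∧ ∀ z ∈ B, y < z → y' ≤ z) : B.Countable := by
  classical
  choose! nx hnx1 hnx2 using hnext
  let E : T → Finset T := fun t => if t ∈ B then {nx t} else ∅
  have hE : ∀ t, ∀ u ∈ E t, t < u := by
    intro t u hu
    by_cases ht : t ∈ B
    · simp only [E, if_pos ht, Finset.mem_singleton] at hu
      subst hu
      exact hnx1 t ht
    · simp [E, if_neg ht] at hu
  obtain ⟨C, hC, hcov⟩ := hL.combin E
  refine Set.Countable.mono (fun x hx => ?_) hC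
  obtain ⟨t, ht, h1, h2⟩ := hcov x hE
  have htB : t ∈ B := hdown x hx t h1
  rcases eq_or_lt_of_le h1 with rfl | h3
  · exact ht
  · exact absurd (hnx2 t htB x hx h3) (h2 _ (by simp [E, if_pos htB]))

/-- in a Lindelöf tree every node has countably many predecessors -/
lemma pred_countable (hT : IsTree T) (hL : Lindelof (fineWedge T)) (x : T) : {y | y < x}.Countable := by
  apply countable_of_next hL
  · intro y hy z hz
    exact lt_of_le_of_lt hz hy
  · intro y hy
    obtain ⟨m, hm, h⟩ := hT.exists_least (x := x) (S := {z | y < z ∧ z ≤ x}) (fun z hz => hz.2)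
      ⟨x, hy, le_refl x⟩
    exact ⟨m, hm.1, fun z hz hyz => h z ⟨hyz, hz.le⟩⟩

/-- a Lindelöf tree has only countable chains -/
lemma chain_countable (hT : IsTree T) (hL : Lindelof (fineWedge T)) (B : Set T)
    (hB : ∀ y ∈ B, ∀ z ∈ B, y ≤ z ∨ z ≤ y) : B.Countable := by
  have h1 : {y | ∃ z ∈ B, y ≤ z}.Countable := by
    by_cases hmax : ∃ m ∈ B, ∀ z ∈ B, z ≤ m
    · obtain ⟨m, hm, h⟩ := hmax
      have h2 : {y | ∃ z ∈ B, y ≤ z} ⊆ {y | y < m} ∪ {m} := by
        rintro y ⟨z, hz, hyz⟩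
        rcases eq_or_lt_of_le (hyz.trans (h z hz)) with h3 | h3
        · exact Or.inr h3
        · exact Or.inl h3
      exact Set.Countable.mono h2 ((pred_countable hT hL m).union (Set.countable_singleton m))
    · push Not at hmax
      apply countable_of_next hL
      · rintro y ⟨z, hz, hyz⟩ w hw
        exact ⟨z, hz, hw.trans hyz⟩
      · rintro y ⟨z, hz, hyz⟩
        obtain ⟨w, hw, hwz⟩ := hmax z hz
        have hzw : z < w := by
          rcases hB z hz w hw with h3 | h3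
          · exact lt_of_le_of_ne h3 (fun h => hwz h.ge)
          · exact absurd h3 hwz
        have hyw : y < w := lt_of_le_of_lt hyz hzw
        obtain ⟨m, hm, h⟩ := hT.exists_least (x := w) (S := {v | y < v ∧ v ≤ w}) (fun v hv => hv.2)
          ⟨w, hyw, le_refl w⟩
        refine ⟨m, hm.1, ?_⟩
        rintro v ⟨v', hv', hvv'⟩ hyv
        rcases hB v' hv' w hw with h3 | h3
        · exact h v ⟨hyv, hvv'.trans h3⟩
        · rcases hT.comp hvv' h3 with h4 | h4
          · exact h v ⟨hyv, h4⟩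
          · exact (h w ⟨hyw, le_refl w⟩).trans h4
  refine Set.Countable.mono (fun y hy => ?_) h1
  exact ⟨y, hy, le_refl y⟩

/-- strong Lindelöf property: neighbourhoods may omit countably many cones -/
def StrongLindelof (T : Type u) [PartialOrder T] : Prop :=
  ∀ E : T → Set T, (∀ t, (E t).Countable) → (∀ t, ∀ u ∈ E t, t < u) →
    ∃ C : Set T, C.Countable ∧ ∀ x, ∃ t ∈ C, t ≤ x ∧ ∀ u ∈ E t, ¬ u ≤ x

/-- a strongly Lindelöf Lindelöf tree has Lindelöf square -/
theorem square_of_strong (hT : IsTree T) (hL : Lindelof (fineWedge T)) (hS : StrongLindelof T) :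
    Lindelof (squareTopology T) := by
  classical
  intro 𝒰 hopen hcov
  have h1 : ∀ s t : T, ∃ U ∈ 𝒰, ∃ E F : Finset T, (∀ u ∈ E, s < u) ∧ (∀ u ∈ F, t < u) ∧
      ∀ x y, s ≤ x → (∀ u ∈ E, ¬ u ≤ x) → t ≤ y → (∀ u ∈ F, ¬ u ≤ y) → (x, y) ∈ U := by
    intro s t
    have hst : (s, t) ∈ ⋃₀ 𝒰 := by rw [hcov]; trivial
    obtain ⟨U, hU, hstU⟩ := hst
    let _ := fineWedge T
    obtain ⟨A, B, hA, hB, hsA, htB, hAB⟩ := isOpen_prod_iff.mp (hopen U hU) s t hstU
    obtain ⟨E, hE1, hE2⟩ := exists_basic hT hA hsA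
    obtain ⟨F, hF1, hF2⟩ := exists_basic hT hB htB
    exact ⟨U, hU, E, F, hE1, hF1, fun x y h1 h2 h3 h4 => hAB ⟨hE2 x h1 h2, hF2 y h3 h4⟩⟩
  choose U hU E F hE hF hUEF using h1
  have h2 : ∀ s, ∃ C : Set T, C.Countable ∧ ∀ y, ∃ t ∈ C, t ≤ y ∧ ∀ u ∈ F s t, ¬ u ≤ y := by
    intro s
    obtain ⟨C, hC, h⟩ := hL.combin (F s)
    exact ⟨C, hC, fun y => h y (hF s)⟩
  choose D hD hDcov using h2
  obtain ⟨C, hC, hCcov⟩ := hS (fun s => ⋃ t ∈ D s, (E s t : Set T))
    (fun s => (hD s).biUnion (fun t _ => Finset.countable_toSet _)) (by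
      intro s u hu
      rw [Set.mem_iUnion₂] at hu
      obtain ⟨t, _, hu⟩ := hu
      exact hE s t u hu)
  refine ⟨(fun p : T × T => U p.1 p.2) '' (⋃ s ∈ C, (fun t => (s, t)) '' D s), ?_, ?_, ?_⟩
  · rintro _ ⟨p, _, rfl⟩
    exact hU p.1 p.2
  · exact (hC.biUnion (fun s _ => (hD s).image _)).image _
  · rw [Set.eq_univ_iff_forall]
    rintro ⟨x, y⟩
    obtain ⟨s, hs, hsx, hx⟩ := hCcov x
    obtain ⟨t, ht, hty, hy⟩ := hDcov s y
    refine ⟨U s t, ⟨(s, t), ?_, rfl⟩, hUEF s t x y hsx ?_ hty hy⟩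
    · rw [Set.mem_iUnion₂]
      exact ⟨s, hs, t, ht, rfl⟩
    · intro u hu
      apply hx
      rw [Set.mem_iUnion₂]
      exact ⟨t, ht, hu⟩

/-- Martin's axiom makes Lindelöf trees strongly Lindelöf -/
theorem strong_of_MA (hMA : MartinAxiomAlephOne.{u}) (hT : IsTree T) (hL : Lindelof (fineWedge T)) :
    StrongLindelof T := by
  classical
  intro E hEc hE
  by_contra hcon
  push Not at hcon
  have hTne : Nonempty T := by
    obtain ⟨x, _⟩ := hcon ∅ Set.countable_empty
    exact ⟨x⟩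
  choose! w hw using hcon
  -- index set of size `ℵ₁`
  let W : Type u := (ℵ₁ : Cardinal.{u}).ord.ToType
  have hWcard : #W = ℵ₁ := Cardinal.mk_ord_toType _
  obtain ⟨r, wo, hr⟩ := exists_wo_countable hWcard
  let Cl : ∀ a : W, (∀ b, r b a → T) → Set T := fun a g => ⋃ b : {b // r b a}, {s | s ≤ g b.1 b.2}
  have hle : ∀ y : T, {s | s ≤ y}.Countable := fun y =>
    Set.Countable.mono (fun s (hs : s ≤ y) => by
      rcases eq_or_lt_of_le hs with h | h
      · exact Or.inr h
      · exact Or.inl h) ((pred_countable hT hL y).union (Set.countable_singleton y))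
  have hClc : ∀ a g, (Cl a g).Countable := by
    intro a g
    have : Countable {b // r b a} := hr a
    exact Set.countable_iUnion (fun b => hle _)
  let x : W → T := wo.wf.fix (fun a g => w (Cl a g))
  have hx : ∀ a, x a = w (Cl a (fun b _ => x b)) := fun a => WellFounded.fix_eq _ _ _
  have hxs : ∀ a s, (∃ b, r b a ∧ s ≤ x b) → s ≤ x a → ∃ u ∈ E s, u ≤ x a := by
    intro a s hs hsa
    have h1 := hw (Cl a (fun b _ => x b)) (hClc a (fun b _ => x b)) s (by
      obtain ⟨b, hb, hsb⟩ := hs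
      exact Set.mem_iUnion.mpr ⟨⟨b, hb⟩, hsb⟩)
    rw [← hx] at h1
    exact h1 hsa
  have hxne : ∀ a b, r b a → x a ≠ x b := by
    intro a b hba heq
    obtain ⟨u, hu, hux⟩ := hxs a (x b) ⟨b, hba, le_refl _⟩ heq.ge
    rw [heq] at hux
    exact absurd hux (not_le_of_gt (hE _ u hu))
  have hxinj : Function.Injective x := by
    intro a b hab
    rcases trichotomous_of r a b with h | h | h
    · exact absurd hab.symm (hxne b a h)
    · exact h
    · exact absurd hab (hxne a b h)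
  -- the next steps
  have hnext : ∀ s : T, ∃ e : ℕ → T, ∀ a, s < x a → ∃ n, s < e n ∧ e n ≤ x a := by
    intro s
    by_cases hne : ∃ a, s ≤ x a
    · let a0 := wo.wf.min {a | s ≤ x a} hne
      have ha0 : s ≤ x a0 := wo.wf.min_mem {a | s ≤ x a} hne
      have hmin : ∀ a, s ≤ x a → ¬ r a a0 := fun a ha => wo.wf.not_lt_min {a | s ≤ x a} ha
      obtain ⟨e, he⟩ := Set.Countable.exists_eq_range ((hEc s).union (Set.countable_singleton (x a0)))
        ⟨x a0, Or.inr rfl⟩
      refine ⟨e, fun a ha => ?_⟩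
      rcases trichotomous_of r a a0 with h | h | h
      · exact absurd h (hmin a ha.le)
      · have h1 : x a ∈ Set.range e := by rw [← he, h]; exact Or.inr rfl
        obtain ⟨n, hn⟩ := h1
        exact ⟨n, by rw [hn]; exact ha, hn.le⟩
      · obtain ⟨u, hu, hux⟩ := hxs a s ⟨a0, h, ha0⟩ ha.le
        have h1 : u ∈ Set.range e := by rw [← he]; exact Or.inl hu
        obtain ⟨n, hn⟩ := h1
        exact ⟨n, by rw [hn]; exact hE s u hu, by rw [hn]; exact hux⟩
    · exact ⟨fun _ => s, fun a ha => absurd ⟨a, ha.le⟩ hne⟩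
  choose e he using hnext
  let R : T → ℕ → W → Prop := fun s k a => s < x a ∧ ∀ n < k, ¬ (s < e s n ∧ e s n ≤ x a)
  -- dense sets
  let TX : Set T := {s | ∃ a, s ≤ x a}
  have hTX : #TX ≤ ℵ₁ := by
    have h1 : TX = ⋃ a : W, {s | s ≤ x a} := by
      ext s; simp [TX]
    rw [h1]
    refine (Cardinal.mk_iUnion_le _).trans ?_
    rw [hWcard]
    have h2 : (⨆ a : W, #({s | s ≤ x a} : Set T)) ≤ ℵ₀ := by
      apply ciSup_le'
      intro a
      exact Cardinal.le_aleph0_iff_set_countable.mpr (hle (x a))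
    calc ℵ₁ * (⨆ a : W, #({s | s ≤ x a} : Set T)) ≤ ℵ₁ * ℵ₀ := by gcongr
      _ ≤ ℵ₁ * ℵ₁ := by
        gcongr
        exact Cardinal.aleph0_lt_aleph_one.le
      _ = ℵ₁ := Cardinal.mul_eq_self (Cardinal.aleph0_lt_aleph_one.le)
  let D1 : ℕ × TX → Set (Cond R) := fun c => {p | ∃ k, (c.1, c.2.1, k) ∈ p.1.1}
  let D2 : W → Set (Cond R) := fun a => {p | ∃ c, (c, a) ∈ p.1.2}
  have hne : Nonempty (Cond R) := ⟨⟨(∅, ∅), by intro a ha; simp at ha⟩⟩
  obtain ⟨G, _, _, hdir, hG⟩ := hMA (Cond R)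
    (fun 𝒜 h𝒜 => ccc (x := x) (fun h1 h2 => hT.comp h1 h2) (pred_countable hT hL) (chain_countable hT hL)
      (fun s k a h => h.1) 𝒜 h𝒜)
    (Set.range D1 ∪ Set.range D2) (by
      refine (Cardinal.mk_union_le _ _).trans ?_
      have h1 : #(Set.range D1) ≤ ℵ₁ := by
        refine Cardinal.mk_range_le.trans ?_
        rw [Cardinal.mk_prod, Cardinal.mk_nat, Cardinal.lift_aleph0, Cardinal.lift_uzero]
        calc ℵ₀ * #TX ≤ ℵ₁ * ℵ₁ := by
              gcongr
              exact Cardinal.aleph0_lt_aleph_one.le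
          _ = ℵ₁ := Cardinal.mul_eq_self (Cardinal.aleph0_lt_aleph_one.le)
      have h2 : #(Set.range D2) ≤ ℵ₁ := by
        refine Cardinal.mk_range_le.trans ?_
        rw [hWcard]
      calc #(Set.range D1) + #(Set.range D2) ≤ ℵ₁ + ℵ₁ := add_le_add h1 h2
        _ = ℵ₁ := Cardinal.add_eq_self (Cardinal.aleph0_lt_aleph_one.le)) (by
      rintro D (⟨⟨c, s⟩, rfl⟩ | ⟨a, rfl⟩) p
      · -- add a large value
        have h1 : ∀ b : ℕ × W, ∃ k, ∀ k' ≥ k, ¬ R s.1 k' b.2 := by
          intro b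
          by_cases hs : s.1 < x b.2
          · obtain ⟨n, hn⟩ := he s.1 b.2 hs
            exact ⟨n + 1, fun k' hk' hR => hR.2 n (by omega) hn⟩
          · exact ⟨0, fun k' _ hR => hs hR.1⟩
        choose κ hκ using h1
        let k := p.1.2.sup κ
        refine ⟨⟨(insert (c, s.1, k) p.1.1, p.1.2), ?_⟩, ⟨k, Finset.mem_insert_self _ _⟩, ?_⟩
        · intro a ha b hb hab
          rcases Finset.mem_insert.mp ha with rfl | ha
          · exact hκ b k (Finset.le_sup (f := κ) hb)
          · exact p.2 a ha b hb hab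
        · exact ⟨Finset.subset_insert _ _, Finset.Subset.refl _⟩
      · -- add a node with a fresh colour
        let c := (p.1.1.sup (fun a => a.1)) + 1
        refine ⟨⟨(p.1.1, insert (c, a) p.1.2), ?_⟩, ⟨c, Finset.mem_insert_self _ _⟩, ?_⟩
        · intro a' ha' b hb hab
          rcases Finset.mem_insert.mp hb with rfl | hb
          · exfalso
            have h1 : a'.1 ≤ p.1.1.sup (fun a => a.1) := Finset.le_sup (f := fun a => a.1) ha'
            have h2 : a'.1 = p.1.1.sup (fun a => a.1) + 1 := hab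
            omega
          · exact p.2 a' ha' b hb hab
        · exact ⟨Finset.Subset.refl _, Finset.subset_insert _ _⟩)
  -- read off the generic object
  have hG1 : ∀ (c : ℕ) (s : TX), ∃ k, ∃ p ∈ G, (c, s.1, k) ∈ p.1.1 := by
    intro c s
    obtain ⟨p, hp, k, hk⟩ := hG (D1 (c, s)) (Or.inl ⟨_, rfl⟩)
    exact ⟨k, p, hp, hk⟩
  have hG2 : ∀ a : W, ∃ c, ∃ p ∈ G, (c, a) ∈ p.1.2 := by
    intro a
    obtain ⟨p, hp, c, hc⟩ := hG (D2 a) (Or.inr ⟨_, rfl⟩)
    exact ⟨c, p, hp, hc⟩
  choose f hf using hG1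
  choose col hcol using hG2
  have hcomp : ∀ (c : ℕ) (s : TX) (a : W), col a = c → ¬ R s.1 (f c s) a := by
    intro c s a hca
    obtain ⟨p, hp, h1⟩ := hf c s
    obtain ⟨q, hq, h2⟩ := hcol a
    obtain ⟨t, _, h3, h4⟩ := hdir p hp q hq
    exact t.2 _ (h3.1 h1) _ (h4.2 h2) hca.symm
  -- an uncountable colour class
  obtain ⟨c, hc⟩ : ∃ c, ¬ {a : W | col a = c}.Countable := by
    by_contra hcon
    push Not at hcon
    have h1 : (Set.univ : Set W) ⊆ ⋃ c, {a | col a = c} := by
      intro a _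
      rw [Set.mem_iUnion]
      exact ⟨col a, rfl⟩
    have h2 := Set.Countable.mono h1 (Set.countable_iUnion hcon)
    have h3 : Countable W := Set.countable_univ_iff.mp h2
    have h4 := Cardinal.mk_le_aleph0_iff.mpr h3
    rw [hWcard] at h4
    exact absurd h4 (not_le_of_gt Cardinal.aleph0_lt_aleph_one)
  -- a cover contradicting the Lindelöf property
  let N : T → Finset T := fun s =>
    if h : s ∈ TX then ((Finset.range (f c ⟨s, h⟩)).image (e s)).filter (fun u => s < u) else ∅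
  obtain ⟨C, hC, hcov⟩ := hL.combin N
  have hN : ∀ t, ∀ u ∈ N t, t < u := by
    intro t u hu
    by_cases h : t ∈ TX
    · simp only [N, dif_pos h, Finset.mem_filter] at hu
      exact hu.2
    · simp [N, dif_neg h] at hu
  apply hc
  have h1 : {a : W | col a = c} ⊆ x ⁻¹' C := by
    intro a ha
    obtain ⟨s, hs, hsa, h⟩ := hcov (x a) hN
    rcases eq_or_lt_of_le hsa with h2 | h2
    · rw [Set.mem_preimage, ← h2]; exact hs
    · exfalso
      have hsTX : s ∈ TX := ⟨a, hsa⟩
      have h3 := hcomp c ⟨s, hsTX⟩ a ha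
      apply h3
      refine ⟨h2, fun n hn h4 => h (e s n) ?_ h4.2⟩
      simp only [N, dif_pos hsTX, Finset.mem_filter, Finset.mem_image, Finset.mem_range]
      exact ⟨⟨n, hn, rfl⟩, h4.1⟩
  exact Set.Countable.mono h1 (hC.preimage hxinj)

/-- **Under Martin's axiom for `ℵ₁` dense sets, the square of a Lindelöf tree is Lindelöf.** -/
theorem positive (hMA : MartinAxiomAlephOne.{u}) (hT : IsTree T) (hL : Lindelof (fineWedge T)) :
    Lindelof (squareTopology T) :=
  square_of_strong hT hL (strong_of_MA hMA hT hL)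

end MP2757db
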